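import Mathlib
import Pool.Agent.X280.CE.LC

set_option autoImplicit false

/-!
# MP_6d0c2f_al, Q1: a super-decomposable abelian group with non-commutative centrally essential
endomorphism ring
-/

namespace Pool.Agent.Results.MP_6d0c2f_al.CantorGroup

open Pool.Agent.X280.CE

/-- A ring is centrally essential if every nonzero element `a` has nonzero central `c`, `d` with
`a c = d`. -/
def CentrallyEssential (Q : Type) [Ring Q] : Prop :=
  ∀ a : Q, a ≠ 0 → ∃ c ∈ Subring.center Q, ∃ d ∈ Subring.center Q, c ≠ 0 ∧ d ≠ 0 ∧ a * c = d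

/-- `A` is nonzero and every nonzero direct summand `B` of `A` is the direct sum of two nonzero
subgroups. -/
def SuperDecomposable (A : Type) [AddCommGroup A] : Prop :=
  Nontrivial A ∧ ∀ B C : AddSubgroup A, IsCompl B C → B ≠ ⊥ →
    ∃ B₁ B₂ : AddSubgroup A, B₁ ≠ ⊥ ∧ B₂ ≠ ⊥ ∧ Disjoint B₁ B₂ ∧ B₁ ⊔ B₂ = B

theorem super : SuperDecomposable LC.data.A := by
  refine ⟨⟨⟨1, LC.data.one_mem_A⟩, 0, ?_⟩, ?_⟩
  · intro h
    have h1 := congrArg (fun z : LC.data.A => (z : LC.EE) (fun _ => true)) h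
    change (1 : E6 ℚ) = 0 at h1
    exact one_ne_zero h1
  intro B C hBC hB
  have hex : ∀ a : LC.data.A, ∃ b ∈ B, ∃ c ∈ C, b + c = a := by
    intro a
    apply AddSubgroup.mem_sup.1
    rw [hBC.sup_eq_top]
    trivial
  choose β hβ γ hγ hsum using hex
  have huniq : ∀ b b' c c' : LC.data.A, b ∈ B → b' ∈ B → c ∈ C → c' ∈ C → b + c = b' + c' →
      b = b' := by
    intro b b' c c' hb hb' hc hc' h
    have h1 : b - b' = c' - c := by
      rw [sub_eq_sub_iff_add_eq_add, h, add_comm]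
    have h2 : b - b' ∈ B := B.sub_mem hb hb'
    have h3 : b - b' ∈ C := by rw [h1]; exact C.sub_mem hc' hc
    have h4 : b - b' ∈ (⊥ : AddSubgroup LC.data.A) := hBC.disjoint.le_bot ⟨h2, h3⟩
    exact sub_eq_zero.1 h4
  let e : AddMonoid.End LC.data.A :=
    { toFun := β
      map_zero' := huniq _ _ (γ 0) 0 (hβ 0) B.zero_mem (hγ 0) C.zero_mem (by
        rw [hsum, add_zero])
      map_add' := fun x y => huniq _ _ (γ (x + y)) (γ x + γ y) (hβ _) (B.add_mem (hβ _) (hβ _))
        (hγ _) (C.add_mem (hγ _) (hγ _)) (by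
          rw [hsum]
          nth_rewrite 1 [← hsum x, ← hsum y]
          abel) }
  have he : ∀ x ∈ B, e x = x := fun x hx =>
    huniq _ _ (γ x) 0 (hβ x) hx (hγ x) C.zero_mem ((hsum x).trans (add_zero _).symm)
  have hee : e * e = e := by
    refine AddMonoidHom.ext fun x => ?_
    exact he _ (hβ x)
  have hev : LC.data.ev e * LC.data.ev e = LC.data.ev e := by
    rw [← RD.ev_mul, hee]
  obtain ⟨U, hU⟩ := LC.idem_eq _ hev
  -- U is nonempty
  have hne : ∃ x, x ∈ U := by
    by_contra hcon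
    push Not at hcon
    apply hB
    rw [eq_bot_iff]
    intro x hx
    have h1 := he x hx
    have h2 : (e x : LC.EE) = 0 := by
      rw [LC.data.apply_eq, hU]
      ext1 y
      change LC.ind U 1 y * (x : LC.EE) y = 0
      classical
      rw [LC.ind_apply, if_neg (hcon y), zero_mul]
    rw [h1] at h2
    exact Subtype.ext h2
  obtain ⟨x0, hx0⟩ := hne
  obtain ⟨U1, U2, ⟨y1, hy1⟩, ⟨y2, hy2⟩, hle1, hle2, hdis, hcov⟩ := LC.split U x0 hx0
  have hm1 : LC.ind U1 1 ∈ LC.data.R := LC.ind_mem E6.RZ.one_mem U1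
  have hm2 : LC.ind U2 1 ∈ LC.data.R := LC.ind_mem E6.RZ.one_mem U2
  let e1 := LC.data.lm _ hm1
  let e2 := LC.data.lm _ hm2
  have hee1 : ∀ a, e (e1 a) = e1 a := by
    intro a
    apply Subtype.ext
    rw [LC.data.apply_eq, hU]
    change LC.ind U 1 * (LC.ind U1 1 * (a : LC.EE)) = LC.ind U1 1 * (a : LC.EE)
    classical
    ext1 y
    change LC.ind U 1 y * (LC.ind U1 1 y * (a : LC.EE) y) = LC.ind U1 1 y * (a : LC.EE) y
    rw [LC.ind_apply, LC.ind_apply]
    by_cases h : y ∈ U1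
    · rw [if_pos h, if_pos (hle1 h), one_mul]
    · rw [if_neg h, zero_mul, mul_zero]
  have hee2 : ∀ a, e (e2 a) = e2 a := by
    intro a
    apply Subtype.ext
    rw [LC.data.apply_eq, hU]
    change LC.ind U 1 * (LC.ind U2 1 * (a : LC.EE)) = LC.ind U2 1 * (a : LC.EE)
    classical
    ext1 y
    change LC.ind U 1 y * (LC.ind U2 1 y * (a : LC.EE) y) = LC.ind U2 1 y * (a : LC.EE) y
    rw [LC.ind_apply, LC.ind_apply]
    by_cases h : y ∈ U2
    · rw [if_pos h, if_pos (hle2 h), one_mul]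
    · rw [if_neg h, zero_mul, mul_zero]
  have hsum12 : ∀ a, e a = e1 a + e2 a := by
    intro a
    apply Subtype.ext
    rw [LC.data.apply_eq, hU]
    change LC.ind U 1 * (a : LC.EE) = LC.ind U1 1 * (a : LC.EE) + LC.ind U2 1 * (a : LC.EE)
    classical
    ext1 y
    change LC.ind U 1 y * (a : LC.EE) y = LC.ind U1 1 y * (a : LC.EE) y +
      LC.ind U2 1 y * (a : LC.EE) y
    rw [LC.ind_apply, LC.ind_apply, LC.ind_apply]
    by_cases h : y ∈ U
    · rcases hcov y h with h1 | h1
      · rw [if_pos h, if_pos h1, if_neg (fun h2 => hdis y h1 h2), zero_mul, add_zero]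
      · rw [if_pos h, if_pos h1, if_neg (fun h2 => hdis y h2 h1), zero_mul, zero_add]
    · rw [if_neg h, if_neg (fun h2 => h (hle1 h2)), if_neg (fun h2 => h (hle2 h2)), zero_mul,
        add_zero]
  have hone : ∀ (W : TopologicalSpace.Clopens LC.X) (y : LC.X) (hy : y ∈ W)
      (hW : LC.ind W 1 ∈ LC.data.R), LC.data.lm _ hW ⟨1, LC.data.one_mem_A⟩ ≠ 0 := by
    intro W y hy hW h
    have h1 := congrArg (fun z : LC.data.A => (z : LC.EE) y) h
    change LC.ind W 1 y * 1 = 0 at h1
    classical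
    rw [LC.ind_apply, if_pos hy, one_mul] at h1
    exact one_ne_zero h1
  refine ⟨AddMonoidHom.range e1, AddMonoidHom.range e2, ?_, ?_, ?_, ?_⟩
  · intro h
    apply hone U1 y1 hy1 hm1
    have : e1 ⟨1, LC.data.one_mem_A⟩ ∈ AddMonoidHom.range e1 := ⟨_, rfl⟩
    rw [h] at this
    exact this
  · intro h
    apply hone U2 y2 hy2 hm2
    have : e2 ⟨1, LC.data.one_mem_A⟩ ∈ AddMonoidHom.range e2 := ⟨_, rfl⟩
    rw [h] at this
    exact this
  · rw [AddSubgroup.disjoint_def]
    rintro z ⟨a, rfl⟩ ⟨b, hb⟩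
    apply Subtype.ext
    classical
    ext1 y
    have h1 := congrArg (fun z : LC.data.A => (z : LC.EE) y) hb
    change LC.ind U2 1 y * (b : LC.EE) y = LC.ind U1 1 y * (a : LC.EE) y at h1
    change LC.ind U1 1 y * (a : LC.EE) y = 0
    by_cases h : y ∈ U1
    · rw [← h1, LC.ind_apply, if_neg (fun h2 => hdis y h h2), zero_mul]
    · rw [LC.ind_apply, if_neg h, zero_mul]
  · apply le_antisymm
    · rw [sup_le_iff]
      constructor
      · rintro _ ⟨a, rfl⟩
        have h2 : β (e1 a) = e1 a := hee1 a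
        have h3 := hβ (e1 a)
        rw [h2] at h3
        exact h3
      · rintro _ ⟨a, rfl⟩
        have h2 : β (e2 a) = e2 a := hee2 a
        have h3 := hβ (e2 a)
        rw [h2] at h3
        exact h3
    · intro b hb
      rw [← he b hb, hsum12]
      exact AddSubgroup.add_mem_sup ⟨b, rfl⟩ ⟨b, rfl⟩

/-- **Result** (positive answer to Q1). There is a (nonzero, torsion-free) super-decomposable
abelian group whose endomorphism ring is non-commutative and centrally essential. -/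
theorem result : ∃ (A : Type) (_ : AddCommGroup A), SuperDecomposable A ∧
    CentrallyEssential (AddMonoid.End A) ∧ ∃ f g : AddMonoid.End A, f * g ≠ g * f := by
  refine ⟨LC.data.A, inferInstance, super, LC.data.centEss LC.strong,
    LC.data.noncomm (r := LC.ind ⊤ E6.eX) (s := LC.ind ⊤ E6.eY) (LC.ind_mem E6.eX_mem ⊤)
      (LC.ind_mem E6.eY_mem ⊤) ?_⟩
  rw [LC.ind_mul, LC.ind_mul]
  intro h
  have h1 := congrArg (fun f : LC.EE => f (fun _ => true)) h
  classical
  change LC.ind ⊤ (E6.eX * E6.eY) (fun _ => true) = LC.ind ⊤ (E6.eY * E6.eX) (fun _ => true) at h1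
  have ht : (fun _ => true : LC.X) ∈ (⊤ : TopologicalSpace.Clopens LC.X) := trivial
  rw [LC.ind_apply, LC.ind_apply, if_pos ht, if_pos ht] at h1
  exact E6.eX_eY h1

end Pool.Agent.Results.MP_6d0c2f_al.CantorGroup
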